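import Mathlib

/-!
Core (internal) definitions for `MP_371b18_ag` (Hurwitz-Hodge integrals, degree `2|i|`).

A ROOTED SYSTEM `Sys m V x`: `V` is the finite set of leaves, the root is implicit, `x S` (for
`S ⊆ V`, `2 ≤ |S|`) stands for the boundary divisor with root outside `S`, `x V` for `- psi_root`.
All identities are tested after multiplication by `m`.
-/

open Finset

namespace Pool.Agent.HH

section core

variable {α : Type} [DecidableEq α] {R : Type} [CommRing R] [Algebra ℚ R]

/-- nested or disjoint -/
def Compat (S T : Finset α) : Prop := S ⊆ T ∨ T ⊆ S ∨ Disjoint S T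

/-- rooted system of boundary divisors, relative to the multiplier `m` -/
structure Sys (m : R) (V : Finset α) (x : Finset α → R) : Prop where
  cross : ∀ S T, S ⊆ V → T ⊆ V → 2 ≤ S.card → 2 ≤ T.card → ¬ Compat S T → m * (x S * x T) = 0
  lin : ∀ a ∈ V, ∀ b ∈ V, a ≠ b → m * ∑ S ∈ V.powerset with (a ∈ S ∧ b ∈ S), x S = 0

/-- sum of `x T` over the `T ⊆ V` strictly containing `S` -/
def yp (V : Finset α) (x : Finset α → R) (S : Finset α) : R :=
  ∑ T ∈ V.powerset with S ⊂ T, x T

/-- sum of `x T` over the `T ⊆ V` containing `S`, when `2 ≤ |S|`, and `0` otherwise -/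
def zz (V : Finset α) (x : Finset α → R) (S : Finset α) : R :=
  if 2 ≤ S.card then x S + yp V x S else 0

/-- the (unnormalised) power sum class -/
def pw (V : Finset α) (O : Finset α → Bool) (x : Finset α → R) (k : ℕ) : R :=
  ∑ S ∈ V.powerset with (S.Nonempty ∧ O S = true), (yp V x S ^ k - zz V x S ^ k)

/-- variables of the `S`-side of the divisor `S`; the root variable is `y_S` -/
def inx (V : Finset α) (x : Finset α → R) (S : Finset α) : Finset α → R :=
  fun T => if T = S then x S + yp V x S else x T

/-- leaves of the other side of the divisor `S`: `S` is replaced by its element `s` -/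
def outV (V S : Finset α) (s : α) : Finset α := insert s (V \ S)

/-- the subset of `V` which corresponds to a subset `T` of `outV V S s` -/
def outS (S : Finset α) (s : α) (T : Finset α) : Finset α := if s ∈ T then T ∪ S else T

/-- variables of the other side -/
def outx (x : Finset α → R) (S : Finset α) (s : α) : Finset α → R := fun T => x (outS S s T)

/-- parities of the other side -/
def outO (O : Finset α → Bool) (S : Finset α) (s : α) : Finset α → Bool :=
  fun T => O (outS S s T)

/-- variables after forgetting the leaf `u` -/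
def forx (x : Finset α → R) (u : α) : Finset α → R := fun T => x T + x (insert u T)

/-- degree one part -/
def H1 (V : Finset α) (x : Finset α → R) : Submodule ℚ R :=
  Submodule.span ℚ {r | ∃ T, T ⊆ V ∧ 2 ≤ T.card ∧ r = x T}

/-- elementary symmetric functions from the power sums `p 1, p 2, ...` (Newton's identities) -/
noncomputable def newton (p : ℕ → R) : ℕ → R
  | 0 => 1
  | m + 1 => ((m + 1 : ℚ)⁻¹) • ∑ k : Fin (m + 1),
      ((-1 : ℚ) ^ (k : ℕ)) • (p (k + 1) * newton p (m - k))

/-- the classes `lambda_m` of a rooted system, `b k` is the coefficient of the `k`-th power sum -/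
noncomputable def lamV (V : Finset α) (O : Finset α → Bool) (b : ℕ → ℚ) (x : Finset α → R) :
    ℕ → R := newton (fun k => b k • pw V O x k)

/-- products of the classes `lambda` -/
noncomputable def lamP (V : Finset α) (O : Finset α → Bool) (b : ℕ → ℚ) (x : Finset α → R)
    {r : ℕ} (i : Fin r → ℕ) : R := ∏ a, lamV V O b x (i a)

/-- `O` is the parity of the number of twisted leaves, and there are `N` twisted leaves -/
def IsPar (V : Finset α) (O : Finset α → Bool) (N : ℕ) : Prop :=
  ∃ W ⊆ V, W.card = N ∧ ∀ T ⊆ V, O T = decide (Odd (T ∩ W).card)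

end core

/-- the decompositions `i = j + l`, as functions with values in pairs -/
def spl {r : ℕ} (i : Fin r → ℕ) : Finset (Fin r → ℕ × ℕ) :=
  Fintype.piFinset (fun a => antidiagonal (i a))

/-- total degree -/
def tot {r : ℕ} (i : Fin r → ℕ) : ℕ := ∑ a, i a

/-- the recursion for the integrals `a(N,i)` -/
noncomputable def aN {r : ℕ} (c : (Fin r → ℕ) → ℚ) : ℕ → (Fin r → ℕ) → ℚ
  | 0, i => if tot i = 0 then 1 else 0
  | 1, i => if tot i = 0 then 1 else 0
  | N + 2, i => aN c N i + ∑ k : Fin N, (N.choose (k + 1) : ℚ) *
      ∑ w ∈ (spl i).filter (fun w => tot (fun a => (w a).1) = (k : ℕ) + 1),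
        c (fun a => (w a).1) *
          aN c (if Even (k : ℕ) then N - k else N - (k + 1)) (fun a => (w a).2)
  termination_by N => N
  decreasing_by
    · omega
    · split_ifs <;> omega

end Pool.Agent.HH
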