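import Mathlib

/-!
# Statement-level definitions for `MP_371b18_ag` (`Z_2` Hurwitz-Hodge integrals)

`ι` is the finite set of markings, `n = |ι| ≥ 3`.

* `Chow ι` is the rational Chow ring of the moduli space of stable `ι`-pointed genus `0` curves in
  Keel's presentation: generators are the boundary divisors `D_S = D_{Sᶜ}`.
* `degree` is the integral over that space: the linear functional which is `1` on every
  zero-dimensional boundary stratum and `0` on classes of degree different from `n - 3`.
* `psi i` is the cotangent line class at the marking `i`; `psiBranch S` is a class whose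
  restriction to `D_S` is the cotangent line class of the node, on the component carrying `S`.
* For a set `W` of twisted markings (`|W|` even), `hodgeCh W k` is the `k`-th Chern character of
  the Hodge bundle of the universal double cover branched at `W`, given by the
  Grothendieck-Riemann-Roch theorem (Mumford, Chiodo), and `lam W m` is its `m`-th Chern class.
-/

open Finset

namespace Pool.Agent.HHI

/-- Keel's relations in the polynomial ring on the symbols `X S`, `S ⊆ ι`: the symbol of an
unstable `S` is `0`; `D_S = D_{Sᶜ}`; `D_S D_T = 0` if the divisors do not meet; and the pullback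
of the relation between the three boundary points of the four-pointed space. -/
inductive KeelRel (ι : Type) [Fintype ι] [DecidableEq ι] : MvPolynomial (Finset ι) ℚ → Prop
  | unstable (S : Finset ι) (h : S.card ≤ 1 ∨ Sᶜ.card ≤ 1) : KeelRel ι (MvPolynomial.X S)
  | compl (S : Finset ι) : KeelRel ι (MvPolynomial.X S - MvPolynomial.X Sᶜ)
  | cross (S T : Finset ι) (h : ¬ (S ⊆ T ∨ T ⊆ S ∨ S ⊆ Tᶜ ∨ Tᶜ ⊆ S)) :
      KeelRel ι (MvPolynomial.X S * MvPolynomial.X T)
  | four (a b c d : ι) (h : [a, b, c, d].Nodup) :
      KeelRel ι (∑ S : Finset ι with (a ∈ S ∧ b ∈ S ∧ c ∉ S ∧ d ∉ S), MvPolynomial.X S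
        - ∑ S : Finset ι with (a ∈ S ∧ c ∈ S ∧ b ∉ S ∧ d ∉ S), MvPolynomial.X S)

/-- Keel's presentation of the rational Chow ring of the space of stable `ι`-pointed curves of
genus `0`. -/
abbrev Chow (ι : Type) [Fintype ι] [DecidableEq ι] : Type :=
  MvPolynomial (Finset ι) ℚ ⧸ Ideal.span {p | KeelRel ι p}

variable {ι : Type} [Fintype ι] [DecidableEq ι]

/-- the class of a polynomial in the boundary divisors -/
noncomputable def cl (p : MvPolynomial (Finset ι) ℚ) : Chow ι := Ideal.Quotient.mk _ p

/-- the boundary divisor `D_S` -/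
noncomputable def bdiv (S : Finset ι) : Chow ι := cl (MvPolynomial.X S)

/-- The average, over the ordered pairs of distinct elements `a, b` of `S`, of the sum of the
`D_T` with `a, b ∈ T` and `T` strictly contained in `S` (all these sums agree after restriction to
`D_S`). It restricts on `D_S` to the cotangent line class, at the node, of the component which
carries the markings of `S`. -/
noncomputable def psiBranch (S : Finset ι) : Chow ι :=
  ((S.offDiag.card : ℚ)⁻¹) • ∑ p ∈ S.offDiag,
    ∑ T : Finset ι with (p.1 ∈ T ∧ p.2 ∈ T ∧ T ⊂ S), bdiv T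

/-- the cotangent line class at the marking `i`: the sum of the `D_T` with `a, b ∈ T`, `i ∉ T`
(the same for all `a, b`; we take the average over `a, b`) -/
noncomputable def psi (i : ι) : Chow ι := psiBranch {i}ᶜ

/-- The `k`-th Chern character (`k ≥ 1`) of the Hodge bundle of the universal double cover branched
over the set `W` of twisted markings. By Grothendieck-Riemann-Roch (Mumford, Chiodo) for the
line bundle of the double cover and for the trivial line bundle it is
`(B_{k+1}(0) - B_{k+1}(1/2)) / (k+1)!` times
`∑_{i ∈ W} psi_i^k - ∑_{D_S, ramified node} iota_{S*} ∑_{a+b=k-1} psi^a (-psi')^b`.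
The second sum is over the boundary divisors whose node is a branch point, i.e. with an odd
number of elements of `W` in `S`; each divisor occurs for `S` and for `Sᶜ`, hence the `1/2`. -/
noncomputable def hodgeCh (W : Finset ι) (k : ℕ) : Chow ι :=
  ((((Polynomial.bernoulli (k + 1)).eval 0 - (Polynomial.bernoulli (k + 1)).eval (1 / 2))
      / ((k + 1).factorial : ℚ)) : ℚ) •
    (∑ i ∈ W, psi i ^ k - (1 / 2 : ℚ) •
      ∑ S : Finset ι with (2 ≤ S.card ∧ 2 ≤ Sᶜ.card ∧ Odd (S ∩ W).card),
        bdiv S * ∑ a ∈ range k, psiBranch S ^ a * (- psiBranch Sᶜ) ^ (k - 1 - a))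

/-- the Chern classes of the Hodge bundle, from its Chern character by Newton's identities
`m lambda_m = ∑_{k=1}^m (-1)^(k-1) k! ch_k lambda_{m-k}` -/
noncomputable def lam (W : Finset ι) : ℕ → Chow ι
  | 0 => 1
  | m + 1 => ((m + 1 : ℚ)⁻¹) • ∑ k : Fin (m + 1),
      ((-1 : ℚ) ^ (k : ℕ) * (((k : ℕ) + 1).factorial : ℚ)) •
        (hodgeCh W (k + 1) * lam W (m - k))

/-- `φ` is the degree (integration) functional -/
structure IsDegree (φ : Chow ι →ₗ[ℚ] ℚ) : Prop where
  /-- it vanishes on the classes of degree different from `n - 3` -/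
  graded : ∀ (d : ℕ) (p : MvPolynomial (Finset ι) ℚ), p.IsHomogeneous d →
    d + 3 ≠ Fintype.card ι → φ (cl p) = 0
  /-- it is `1` on every zero-dimensional stratum, i.e. on every product of `n - 3` different
  boundary divisors which meet pairwise -/
  point : ∀ F : Finset (Finset ι), F.card + 3 = Fintype.card ι →
    (∀ S ∈ F, 2 ≤ S.card ∧ 2 ≤ Sᶜ.card ∧ Sᶜ ∉ F) →
    (∀ S ∈ F, ∀ T ∈ F, S ⊆ T ∨ T ⊆ S ∨ S ⊆ Tᶜ ∨ Tᶜ ⊆ S) → φ (∏ S ∈ F, bdiv S) = 1

open Classical in
/-- integration over the space of stable `ι`-pointed curves of genus `0` -/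
noncomputable def degree : Chow ι →ₗ[ℚ] ℚ :=
  if h : ∃ φ : Chow ι →ₗ[ℚ] ℚ, IsDegree φ then h.choose else 0

/-- the Hurwitz-Hodge integral of `psi_j^e ∏_a lambda_{i_a}` over the space of stable maps to
`B Z_2` with the twisted markings `W`; the map to the space of pointed curves has degree `1/2` -/
noncomputable def hurwitzHodge (W : Finset ι) (j : ι) (e : ℕ) {r : ℕ} (i : Fin r → ℕ) : ℚ :=
  (1 / 2) * degree (psi j ^ e * ∏ a, lam W (i a))

/-- `D_{(i),2g+2}`: all the `2g+2` markings are twisted, `j` is one of them -/
noncomputable def bigD {r : ℕ} (i : Fin r → ℕ) (g : ℕ) (j : Fin (2 * g + 2)) : ℚ :=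
  hurwitzHodge (univ : Finset (Fin (2 * g + 2))) j (2 * g - 1 - ∑ a, i a) i

/-- `d_{(i),2g+2}`: the first `2g+2` markings are twisted, the last one is untwisted and carries
the class `psi` -/
noncomputable def smallD {r : ℕ} (i : Fin r → ℕ) (g : ℕ) : ℚ :=
  hurwitzHodge ((univ : Finset (Fin (2 * g + 3))).erase (Fin.last (2 * g + 2)))
    (Fin.last (2 * g + 2)) (2 * g - ∑ a, i a) i

end Pool.Agent.HHI
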