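import Pool.Agent.Lib.MP_371b18_ag.Core

/-!
Statements of the pieces for the rooted theory (see `Core.lean` for the definitions).
Convention: `m * _ = m * _` is equality under the multiplier `m`.
Every piece is a theorem `p_xxx : S_xxx`, possibly with earlier statements as hypotheses.
-/

open Finset

namespace Pool.Agent.HH

/-! ### Newton -/

/-- N1. Let `P = p + q`, `e = newton p`, `f = newton q`, `g m = ∑_{a+b=m} e a * f b`. Show by strong
induction `newton P m = g m`: it suffices that `m * g m = ∑_{k=1}^m (-1)^(k-1) P_k g_{m-k}`; and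
`m * e_a f_b = (a e_a) f_b + e_a (b f_b)` for `a+b=m`, insert the Newton identities for `a e_a` and
`b f_b` and exchange the sums. -/
def S_newton_add : Prop := ∀ (R : Type) [CommRing R] [Algebra ℚ R] (p q : ℕ → R) (m : ℕ),
  newton (fun k => p k + q k) m = ∑ ab ∈ antidiagonal m, newton p ab.1 * newton q ab.2

/-- N2. Strong induction on `m`; `μ * (p_{k+1} * e_{m-k}) = (μ p_{k+1}) e_{m-k}
= (μ q_{k+1}) e_{m-k} = q_{k+1} (μ e_{m-k})`. -/
def S_newton_congr : Prop := ∀ (R : Type) [CommRing R] [Algebra ℚ R] (μ : R) (p q : ℕ → R),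
  (∀ k, 1 ≤ k → μ * p k = μ * q k) → ∀ m, μ * newton p m = μ * newton q m

/-- N3. Strong induction: `p_{k+1} ∈ H^(k+1)`, `e_{m-k} ∈ H^(m-k)`, product in `H^(m+1)`. -/
def S_newton_mem : Prop := ∀ (R : Type) [CommRing R] [Algebra ℚ R] (H : Submodule ℚ R)
  (p : ℕ → R), (∀ k, 1 ≤ k → p k ∈ H ^ k) → ∀ m, newton p m ∈ H ^ m

/-- N4. `newton` commutes with algebra homomorphisms. -/
def S_newton_map : Prop := ∀ (R R' : Type) [CommRing R] [Algebra ℚ R] [CommRing R']
  [Algebra ℚ R'] (f : R →ₐ[ℚ] R') (p : ℕ → R) (m : ℕ),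
  f (newton p m) = newton (fun k => f (p k)) m

/-- N5. Same power sums for `k ≥ 1` give the same `newton`. -/
def S_newton_ext : Prop := ∀ (R : Type) [CommRing R] [Algebra ℚ R] (p q : ℕ → R),
  (∀ k, 1 ≤ k → p k = q k) → ∀ m, newton p m = newton q m

/-! ### The two sides of a divisor -/

/-- A1. `S`-side. Put `μ = m * x S`. For `T ⊆ V`, `2 ≤ |T|`, incompatible with `S`, `μ x T = 0`.
`cross`: for `T, T' ⊆ S` incompatible neither of them is `S`, so `inx T = x T`.
`lin`: for `a ≠ b` in `S`, `∑_{a,b ∈ T ⊆ S} inx T = ∑_{a,b ∈ T ⊂ S} x T + (x S + yp S)`, and this is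
the sum of `x T` over the `T ∋ a, b`, `T ⊆ V` with `T ⊆ S` or `S ⊆ T`; the other `T ∋ a, b` are
incompatible with `S` (they meet `S`), so `μ` times it is `μ ∑_{a,b ∈ T ⊆ V} x T = 0`. -/
def S_sys_in : Prop := ∀ (α : Type) [DecidableEq α] (R : Type) [CommRing R] [Algebra ℚ R] (m : R)
  (V : Finset α) (x : Finset α → R), Sys m V x → ∀ S, S ⊂ V → 2 ≤ S.card →
  Sys (m * x S) S (inx V x S)

/-- A2. Other side. `T ↦ outS S s T` is a bijection from the subsets of `outV V S s` to the subsets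
of `V` which contain `S` or are disjoint from `S`; it preserves `Compat` and its negation
(for incompatible `T, T'` the images are incompatible), and `2 ≤ |T|` gives `2 ≤ |outS T|`.
`lin` for `a ≠ b` in `outV`: if both are different from `s` (hence not in `S`): the subsets
`T ∋ a, b` of `V` compatible with `S` are those disjoint from `S` or containing `S` (not `T ⊆ S`).
If `a = s`: `T ∋ b` containing `S`; the `T ∋ s, b` compatible with `S` contain `S`. In both cases
`μ ∑ outx = μ ∑_{a,b ∈ T ⊆ V} x T = 0` (`μ = m x S` kills the incompatible ones). -/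
def S_sys_out : Prop := ∀ (α : Type) [DecidableEq α] (R : Type) [CommRing R] [Algebra ℚ R] (m : R)
  (V : Finset α) (x : Finset α → R), Sys m V x → ∀ S, S ⊂ V → 2 ≤ S.card → ∀ s ∈ S,
  Sys (m * x S) (outV V S s) (outx x S s)

/-- A3. Splitting of the power sum classes, `μ = m * x S`, `k ≥ 1`.
Use: `μ (a - b) = 0` implies `μ (a^k - b^k) = 0`. Terms `T ⊆ V`, `T` nonempty, `O T = true`.
* `T` incompatible with `S`: then `2 ≤ |T|`, `yp^k - (x T + yp)^k` is a multiple of `x T`, killed.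
* `T ⊂ S`: `μ yp V x T = μ yp S inx T` (the `U ⊋ T` compatible with `S` satisfy `U ⊆ S` or
  `S ⊆ U`; `yp S inx T = ∑_{T ⊂ U ⊂ S} x U + (x S + yp V x S)`), and the same for `zz`.
* `T = S`: `V`-term `yp^k - (x S + yp)^k`. The `S`-side term of `T = S` is `0^k - (x S + yp)^k`, and
  the outer term of `{s}` is `yp V x S ^ k - 0^k` as `yp (outV) (outx) {s} = yp V x S`.
* `T ⊋ S`: corresponds to `U = insert s (T \ S) ⊆ outV`; `yp` and `zz` agree exactly.
* `T` disjoint from `S`: corresponds to `U = T`; `x T` agrees and `μ yp V x T = μ yp outV outx T`. -/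
def S_pw_split : Prop := ∀ (α : Type) [DecidableEq α] (R : Type) [CommRing R] [Algebra ℚ R] (m : R)
  (V : Finset α) (x : Finset α → R), Sys m V x → ∀ S, S ⊂ V → 2 ≤ S.card → ∀ s ∈ S,
  ∀ (O : Finset α → Bool) (k : ℕ), 1 ≤ k →
  m * x S * pw V O x k = m * x S * (pw S O (inx V x S) k +
    pw (outV V S s) (outO O S s) (outx x S s) k)

/-- A4. Splitting of the products of lambda classes: from A3, N1, N2 and
`∏ a, ∑ p ∈ antidiagonal (i a), f a p = ∑ w ∈ spl i, ∏ a, f a (w a)` (`Finset.prod_univ_sum`);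
for the congruence of a product under the multiplier `μ` change one factor at a time. -/
def S_lam_split : Prop := ∀ (α : Type) [DecidableEq α] (R : Type) [CommRing R] [Algebra ℚ R] (m : R)
  (V : Finset α) (x : Finset α → R), Sys m V x → ∀ S, S ⊂ V → 2 ≤ S.card → ∀ s ∈ S,
  ∀ (O : Finset α → Bool) (b : ℕ → ℚ) (r : ℕ) (i : Fin r → ℕ),
  m * x S * lamP V O b x i = m * x S * ∑ w ∈ spl i,
    lamP S O b (inx V x S) (fun a => (w a).1) *
      lamP (outV V S s) (outO O S s) b (outx x S s) (fun a => (w a).2)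

/-! ### Forgetting a leaf -/

/-- F1. For `S, T ⊆ V.erase u` incompatible, all of `S`, `insert u S` are incompatible with `T`,
`insert u T` (they meet and none contains the other); `lin` by the bijection
`T ↦ T` or `insert u T`. -/
def S_forget_sys : Prop := ∀ (α : Type) [DecidableEq α] (R : Type) [CommRing R] [Algebra ℚ R]
  (m : R) (V : Finset α) (x : Finset α → R), Sys m V x → ∀ u ∈ V,
  Sys m (V.erase u) (forx x u)

/-- F2. Pair the terms `S` and `insert u S`, `S ⊆ V.erase u` nonempty. Let `e = x (insert u S)`,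
`Y = yp (V.erase u) (forx x u) S`, `y' = yp V x (insert u S)`. Then `yp V x S = Y + e`,
`zz V x S = zz (V.erase u) (forx x u) S`, `zz V x (insert u S) = e + y'`, and `m e Y = m e y'`
since `e x T` is killed for `S ⊂ T`, `u ∉ T`. So
`m ((Y+e)^k - Y^k) = m ((y'+e)^k - y'^k)` (both are `e` times a polynomial in `Y` resp. `y'`),
which is the claim. The term `{u}` does not occur as `O {u} = false`. -/
def S_forget_pw : Prop := ∀ (α : Type) [DecidableEq α] (R : Type) [CommRing R] [Algebra ℚ R]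
  (m : R) (V : Finset α) (x : Finset α → R), Sys m V x → ∀ u ∈ V, ∀ (O : Finset α → Bool),
  O {u} = false → (∀ T, T ⊆ V.erase u → T.Nonempty → O (insert u T) = O T) →
  ∀ k, 1 ≤ k → m * pw V O x k = m * pw (V.erase u) O (forx x u) k

/-- F3. From F2, N2. -/
def S_forget_lam : Prop := ∀ (α : Type) [DecidableEq α] (R : Type) [CommRing R] [Algebra ℚ R]
  (m : R) (V : Finset α) (x : Finset α → R), Sys m V x → ∀ u ∈ V, ∀ (O : Finset α → Bool),
  O {u} = false → (∀ T, T ⊆ V.erase u → T.Nonempty → O (insert u T) = O T) →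
  ∀ (b : ℕ → ℚ) (r : ℕ) (i : Fin r → ℕ),
  m * lamP V O b x i = m * lamP (V.erase u) O b (forx x u) i

/-! ### Degrees -/

/-- B1. Decomposition of degree `d` classes on a divisor, `μ = m * x S`: for `T ⊆ V`, `2 ≤ |T|`:
`T ⊂ S`: `x T = inx T`; `T = S`: `x S = inx S - yp V x S`, and `yp V x S` is the sum of `outx U` over
the `U ⊆ outV`, `s ∈ U`, `U ≠ {s}` (all have `2 ≤ |U|`); `T ⊋ S` or `T` disjoint from `S`:
`x T = outx U`; `T` incompatible: `μ x T = 0`. So `μ H1(V) ⊆ μ (H1(S) + H1(outV))`, and products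
give the claim (induction on `d`; an element of `H^(d+1) = H^d * H` is a sum of products). -/
def S_decomp : Prop := ∀ (α : Type) [DecidableEq α] (R : Type) [CommRing R] [Algebra ℚ R] (m : R)
  (V : Finset α) (x : Finset α → R), Sys m V x → ∀ S, S ⊂ V → 2 ≤ S.card → ∀ s ∈ S,
  ∀ (d : ℕ) (q : R), q ∈ (H1 V x) ^ d → ∃ q' ∈ (⨆ ab ∈ antidiagonal d,
    (H1 S (inx V x S)) ^ ab.1 * (H1 (outV V S s) (outx x S s)) ^ ab.2 : Submodule ℚ R),
    m * x S * q = m * x S * q'

/-- B2. `m` times a class of degree `d` is a combination of the `m * x S * (class of degree d - 1)`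
with `S ⊂ V`: write a generator `x T * q'`; for `T = V` use the relation
`m * x V = - ∑_{a,b ∈ S ⊂ V} m * x S` for two chosen leaves `a ≠ b`. -/
def S_gen : Prop := ∀ (α : Type) [DecidableEq α] (R : Type) [CommRing R] [Algebra ℚ R] (m : R)
  (V : Finset α) (x : Finset α → R), Sys m V x → 2 ≤ V.card → ∀ (d : ℕ) (q : R),
  q ∈ (H1 V x) ^ (d + 1) → m * q ∈ Submodule.span ℚ {z : R | ∃ S, S ⊂ V ∧ 2 ≤ S.card ∧
    ∃ q' ∈ (H1 V x) ^ d, z = m * x S * q'}

/-- B3. Vanishing above the top degree `|V| - 2`, by strong induction on `|V|`. By B2 it suffices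
`m * x S * q' = 0`, `q'` of degree `d - 1 > |V| - 3 = (|S| - 2) + (|outV| - 2)`; by B1 it is a sum of
`m * x S * (u * v)`, `deg u + deg v = d - 1`, so `deg u > |S| - 2` or `deg v > |outV| - 2`, and the
induction hypothesis applies to the systems A1, A2. (`|outV V S s| = |V| - |S| + 1 < |V|`.) For
`|V| = 2` B2 shows the claim at once (there is no `S`). -/
def S_top : Prop := ∀ (α : Type) [DecidableEq α] (R : Type) [CommRing R] [Algebra ℚ R] (m : R)
  (V : Finset α) (x : Finset α → R), Sys m V x → 2 ≤ V.card → ∀ (d : ℕ), V.card < d + 2 →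
  ∀ q ∈ (H1 V x) ^ d, m * q = 0

/-- B4. The pair case: `m (-x V)^(|V|-2) = m x_{ab} (-x V)^(|V|-3)`. `m (-x V) = ∑_{a,b∈T⊂V} m x T`
and for `|T| ≥ 3` the class `(-x V)^(|V|-3)` has degree `> |outV V T a| - 2` and lies in the system
A2 of `T` (its root variable is `outx (outV V T a) = x V`), so it is killed by B3. -/
def S_pair : Prop := ∀ (α : Type) [DecidableEq α] (R : Type) [CommRing R] [Algebra ℚ R] (m : R)
  (V : Finset α) (x : Finset α → R), Sys m V x → 3 ≤ V.card → ∀ a ∈ V, ∀ b ∈ V, a ≠ b →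
  m * (-x V) ^ (V.card - 2) = m * x {a, b} * (-x V) ^ (V.card - 3)

/-- B5. `m x_S (-y_S)^(|S|-2) (-x_V)^(|V|-|S|-1) = m (-x_V)^(|V|-2)`, `y_S = x S + yp V x S`.
Induction on `|V|`. `|S| = 2` is B4. `|S| ≥ 3`: choose `a ≠ b` in `S`; B4 for the system A1 gives
`m x_S (-y_S)^(|S|-2) = m x_S x_{ab} (-y_S)^(|S|-3)`. Now use the system A2 for the divisor
`{a, b}`, `s = a`: the set `S' = insert a (S \ {a,b}) ⊂ outV` has `|S| - 1` elements,
`outx S' = x S`, and `outx S' + yp outV outx S' = y_S` exactly, `outx (outV) = x V`; the induction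
hypothesis gives `m x_{ab} x_S (-y_S)^(|S|-3) (-x_V)^(|V|-|S|-1) = m x_{ab} (-x_V)^(|V|-3)`, and
B4 again. -/
def S_link : Prop := ∀ (α : Type) [DecidableEq α] (R : Type) [CommRing R] [Algebra ℚ R] (m : R)
  (V : Finset α) (x : Finset α → R), Sys m V x → ∀ S, S ⊂ V → 2 ≤ S.card →
  m * x S * ((-(x S + yp V x S)) ^ (S.card - 2) * (-x V) ^ (V.card - S.card - 1)) =
    m * (-x V) ^ (V.card - 2)

/-- B6. Top degree classes are multiples of `(-x V)^(|V|-2)`, strong induction on `|V|`.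
`|V| = 2`: `q ∈ H^0` is a scalar. `|V| ≥ 3`: by B2 and B1 we need `m x_S u v`, with
`deg u + deg v = |V| - 3`; it vanishes by B3 unless `deg u = |S| - 2`, `deg v = |outV| - 2`, and then
by induction `m x_S u = c m x_S (-y_S)^(|S|-2)`, `m x_S v = c' m x_S (-x_V)^(|outV|-2)`, use B5. -/
def S_span : Prop := ∀ (α : Type) [DecidableEq α] (R : Type) [CommRing R] [Algebra ℚ R] (m : R)
  (V : Finset α) (x : Finset α → R), Sys m V x → 2 ≤ V.card →
  ∀ q ∈ (H1 V x) ^ (V.card - 2), ∃ c : ℚ, m * q = c • (m * (-x V) ^ (V.card - 2))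

/-- B7. `lamP` is homogeneous of degree `tot i` (N3; `pw` is in `H1^k` as `yp` of a nonempty set and
`zz` are in `H1`). Also `x V ∈ H1` (for `2 ≤ |V|`). -/
def S_lam_mem : Prop := ∀ (α : Type) [DecidableEq α] (R : Type) [CommRing R] [Algebra ℚ R]
  (V : Finset α) (x : Finset α → R) (O : Finset α → Bool) (b : ℕ → ℚ) (r : ℕ) (i : Fin r → ℕ),
  lamP V O b x i ∈ (H1 V x) ^ (tot i)

/-! ### Universal constants -/

/-- G1. Relabelling: for `g : β → α` injective on `V0` and `x0 T = x (T.image g)`, a system on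
`V0.image g` gives a system on `V0`, with the same classes. -/
def S_relabel : Prop := ∀ (α β : Type) [DecidableEq α] [DecidableEq β] (R : Type) [CommRing R]
  [Algebra ℚ R] (m : R) (V0 : Finset β) (g : β → α), Set.InjOn g V0 → ∀ (x : Finset α → R)
  (O : Finset α → Bool), Sys m (V0.image g) x →
  Sys m V0 (fun T => x (T.image g)) ∧ ∀ (b : ℕ → ℚ) (r : ℕ) (i : Fin r → ℕ),
    lamP V0 (fun T => O (T.image g)) b (fun T => x (T.image g)) i =
      lamP (V0.image g) O b x i

/-- G2. The universal ring: `MvPolynomial (Finset α) ℚ` modulo the ideal generated by the relations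
of `Sys` for the variables is a ring with a system with multiplier `1`; every identity
`lamP = c (-x V)^(|V|-2)` in it gives `m * lamP = c • (m * (-x V)^(|V|-2))` for every system
(the linear map `p ↦ m * aeval x p` kills the ideal; `aeval x` is an algebra homomorphism and
`lamP` commutes with it by N4). Use B6, B7 in the universal ring with `V = range (t+2)`, all leaves
twisted, and G1 to pass to all `V` with `t + 2` elements (choose `g` with
`(range (t+2)).image g = V`, injective on `range (t+2)`). If `t = tot i`, `c i` is the constant. -/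
def S_const : Prop := ∀ (b : ℕ → ℚ) (r : ℕ), ∃ c : (Fin r → ℕ) → ℚ, ∀ (i : Fin r → ℕ)
  (α : Type) [DecidableEq α] (R : Type) [CommRing R] [Algebra ℚ R] (m : R) (V : Finset α)
  (x : Finset α → R) (O : Finset α → Bool), V.card = tot i + 2 → IsPar V O V.card → Sys m V x →
  m * lamP V O b x i = c i • (m * (-x V) ^ (tot i))

/-- G3. The constant for degree one, `|V| = 3`, `V = {a,b,c}`: `newton p 1 = p 1`, so
`lamP = b 1 • pw V O x 1`; `pw V O x 1 = 2 (x_ab + x_ac + x_bc) + 3 x_V - x_V` and the relations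
give `m x_ab = - m x_V` etc., so `m pw = -4 m x_V`. The other factors are `newton p 0 = 1`. -/
def S_one : Prop := ∀ (b : ℕ → ℚ) (r : ℕ) (i : Fin r → ℕ), tot i = 1 →
  ∀ (α : Type) [DecidableEq α] (R : Type) [CommRing R] [Algebra ℚ R] (m : R) (V : Finset α)
  (x : Finset α → R) (O : Finset α → Bool), V.card = 3 → IsPar V O 3 → Sys m V x →
  m * lamP V O b x i = (4 * b 1) • (m * (-x V))

/-! ### The recursion -/

/-- J1. `aN c N i = 0` if `tot i ≥ 1` and `N ≤ tot i + 1`. Strong induction on `N`. `N = 0, 1`: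
definition. `N + 2`, `tot i ≥ N + 1`: `aN c N i = 0` by induction; a term with `k` (`k < N`) has
`tot l = tot i - (k+1) ≥ N - k ≥ 1` and `N' ≤ N - k`, so it vanishes by induction. -/
def S_dim : Prop := ∀ (r : ℕ) (c : (Fin r → ℕ) → ℚ) (N : ℕ) (i : Fin r → ℕ), 1 ≤ tot i →
  N ≤ tot i + 1 → aN c N i = 0

/-- J2. `aN c (tot i + 2) i = c i` for `tot i ≥ 1`: in the recursion only the term with
`k + 1 = tot i`, `w = (i, 0)` is not killed by J1 (`aN c _ 0 = 1` for the index `0` or `1`). -/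
def S_topc : Prop := ∀ (r : ℕ) (c : (Fin r → ℕ) → ℚ) (i : Fin r → ℕ), 1 ≤ tot i →
  aN c (tot i + 2) i = c i

/-- J3. String equation. `u ∈ V`, `3 ≤ |V|`, `V0 = V.erase u`, `X = forx x u`, `D = x V0`,
`ψ = -x V`, `π = -X V0 = -(x V0 + x V)`, so `ψ = π + D`, and `m ψ D = 0` (multiply the relation for
`a, u` (`a ∈ V0`) by `x V0`: the sets `S ∋ a, u` compatible with `V0` are only `S = V`). Hence
`m ψ^e = m (π^e + D π^(e-1))` for `e ≥ 1`. For `q ∈ H1(V0,X)^(|V|-2-e)`, `m π^e q = 0` by B3 for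
`F1`. Result: `m ψ^e q = m D π^(e-1) q`. -/
def S_string : Prop := ∀ (α : Type) [DecidableEq α] (R : Type) [CommRing R] [Algebra ℚ R]
  (m : R) (V : Finset α) (x : Finset α → R), Sys m V x → 3 ≤ V.card → ∀ u ∈ V, ∀ (e d : ℕ),
  1 ≤ e → e + d + 2 = V.card → ∀ q ∈ (H1 (V.erase u) (forx x u)) ^ d,
  m * ((-x V) ^ e * q) =
    x (V.erase u) * (m * ((-(forx x u (V.erase u))) ^ (e - 1) * q))

/-- J4. TRR and splitting: for `3 ≤ |V|`, `a ≠ b` in `V`, `1 ≤ e`, `e + tot i + 2 = |V|`,
`m (-x V)^e lamP = ∑_{a,b ∈ S ⊂ V} ∑_{w ∈ spl i, tot w.1 = |S| - 2}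
   (m x S) lamP_S(w.1) ((-x V)^(e-1) lamP_out(w.2))`.
Use `m (-x V) = ∑ m x S`, A4, and B3 for the terms with `tot w.1 ≠ |S| - 2`: if
`tot w.1 > |S| - 2` use the system A1; if `tot w.1 < |S| - 2` then `(-x V)^(e-1) lamP_out` has degree
`e - 1 + tot w.2 > |outV| - 2` in the system A2 (`s = a`). -/
def S_trr : Prop := ∀ (α : Type) [DecidableEq α] (R : Type) [CommRing R] [Algebra ℚ R]
  (m : R) (V : Finset α) (x : Finset α → R), Sys m V x → 3 ≤ V.card → ∀ a ∈ V, ∀ b ∈ V, a ≠ b →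
  ∀ (O : Finset α → Bool) (β : ℕ → ℚ) (r : ℕ) (i : Fin r → ℕ) (e : ℕ), 1 ≤ e →
  e + tot i + 2 = V.card →
  m * ((-x V) ^ e * lamP V O β x i) = ∑ S ∈ V.powerset with (a ∈ S ∧ b ∈ S ∧ S ≠ V),
    ∑ w ∈ (spl i).filter (fun w => tot (fun t => (w t).1) + 2 = S.card),
      m * x S * (lamP S O β (inx V x S) (fun t => (w t).1) *
        ((-x V) ^ (e - 1) * lamP (outV V S a) (outO O S a) β (outx x S a) (fun t => (w t).2)))

/-- J5. Main formula, strong induction on `|V|`.
`|V| = 2`: `tot i = 0`, all factors are `newton _ 0 = 1`, `aN c N i = 1` for `N ≤ 2`, `tot i = 0`.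
`|V| ≥ 3`, some leaf `u` is untwisted: F3, J3 (for `e = |V|-2-tot i ≥ 1`), the induction hypothesis
for the system F1, and J3 once more with `q = 1`, `e = |V| - 2`:
`m (-x V)^(|V|-2) = x V0 (m π^(|V|-3))`. For `e = 0`: `m lamP = 0` by B3 for F1, and
`aN c N i = 0` by J1 (`N ≤ |V| - 1 = tot i + 1`).
`|V| ≥ 3`, all leaves twisted, `N = |V|`: `e = 0`: hypothesis on `c` and J2. `e ≥ 1`: J4 for two
leaves `a ≠ b`; the hypothesis on `c` for the system A1 (for `|S| = 2`: `lamP = 1`) and the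
induction hypothesis for the system A2, which has `N' = |V \ S| + (1 if |S| odd)` twisted leaves,
give for each `S` the value `c(w.1) aN c N' w.2 * m x S (-y_S)^(|S|-2) (-x V)^(|outV|-2)`, use B5;
the number of `S` with `|S| = k + 3` is `(N-2).choose (k+1)`, compare with the definition
of `aN`; the term `k + 1 = N - 2` of `aN` is `0` as `tot i < N - 2`. -/
def S_main : Prop := ∀ (b : ℕ → ℚ) (r : ℕ) (c : (Fin r → ℕ) → ℚ),
  (∀ (i : Fin r → ℕ) (α : Type) [DecidableEq α] (R : Type) [CommRing R] [Algebra ℚ R] (m : R)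
    (V : Finset α) (x : Finset α → R) (O : Finset α → Bool), V.card = tot i + 2 →
    IsPar V O V.card → Sys m V x → m * lamP V O b x i = c i • (m * (-x V) ^ (tot i))) →
  ∀ (α : Type) [DecidableEq α] (R : Type) [CommRing R] [Algebra ℚ R] (m : R) (V : Finset α)
    (x : Finset α → R) (O : Finset α → Bool) (N : ℕ), 2 ≤ V.card → IsPar V O N → Sys m V x →
    ∀ i : Fin r → ℕ, tot i + 2 ≤ V.card →
      m * ((-x V) ^ (V.card - 2 - tot i) * lamP V O b x i) =
        aN c N i • (m * (-x V) ^ (V.card - 2))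

/-! ### Polynomials -/

/-- Q1. Summation: a rational polynomial `R` of degree `< d` has a polynomial `P` of degree `≤ d`
with `P(g+1) - P(g) = R(g)`, coefficient of `X^d` equal to `(coeff of X^(d-1) of R) / d`, and
prescribed value at `0`. -/
def S_sum : Prop := ∀ (d : ℕ) (R : Polynomial ℚ) (v : ℚ), 1 ≤ d → R.natDegree ≤ d - 1 →
  ∃ P : Polynomial ℚ, P.natDegree ≤ d ∧ P.coeff d = R.coeff (d - 1) / d ∧ P.eval 0 = v ∧
    ∀ g : ℚ, P.eval (g + 1) - P.eval g = R.eval g

/-- Q2. For `ε ∈ {0,1}` and `i` there is `P` with `natDegree = 2 tot i`, leading coefficient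
`1 / (2^(tot i) ∏ (i a)!)` and `aN c (2g+ε) i = P(g)` for all `g`. Strong induction on `t = tot i`.
`t = 0`: all values are `1`. For `t ≥ 1`, with `N = 2g+ε`:
`aN c (N+2) i - aN c N i = ∑_{k<N} C(N,k+1) ∑_{w, tot w.1 = k+1} c(w.1) aN c N' w.2`; terms with
`k + 1 > t` do not occur, and `C(N,k+1) = 0` for `k ≥ N`, so the sum may be taken over `k < t`;
`C(2g+ε, k+1)` is a polynomial of degree `k+1` in `g`, and `aN c N' w.2 = P_{w.2}(g - k/2)` (`k` even),
`P_{w.2}(g - (k+1)/2)` (`k` odd), of degree `2 (t - k - 1)`. So the right side is a polynomial of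
degree `≤ 2t - 1` (the `k`-th term has degree `≤ 2t - k - 1`), and its coefficient of `g^(2t-1)`
comes from `k = 0` only: `C(N,1) = 2g + ε`, `c(w.1) = 1/2`, so it is
`∑_{a, i a ≥ 1} 2 * (1/2) / (2^(t-1) ∏ (i - e_a)!) = t / (2^(t-1) ∏ (i a)!)`. Q1 with `d = 2t`
gives the coefficient `t / (2t 2^(t-1) ∏ (i a)!) = 1 / (2^t ∏ (i a)!)` of `g^(2t)`. -/
def S_poly : Prop := ∀ (r : ℕ) (c : (Fin r → ℕ) → ℚ), (∀ i, tot i = 1 → c i = 1 / 2) →
  ∀ (ε : ℕ), ε ≤ 1 → ∀ i : Fin r → ℕ, ∃ P : Polynomial ℚ, P.natDegree = 2 * tot i ∧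
    P.leadingCoeff = 1 / (2 ^ (tot i) * ∏ a, ((i a).factorial : ℚ)) ∧
    ∀ g : ℕ, aN c (2 * g + ε) i = P.eval (g : ℚ)

end Pool.Agent.HH
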