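import Pool.Agent.Lib.MP_371b18_ag.Stm
import Pool.Agent.Lib.MP_371b18_ag.Defs

/-!
Statements of the pieces that connect Keel's presentation (`Defs.lean`) with the rooted theory
(`Core.lean`, `Stm.lean`), and of the existence of the degree functional.
-/

open Finset

namespace Pool.Agent.HH

open Pool.Agent.HHI

/-! ### Existence of the functional in rooted form -/

/-- the relations of the universal rooted system -/
inductive RootRel {α : Type} [DecidableEq α] (V : Finset α) : MvPolynomial (Finset α) ℚ → Prop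
  | junk (S : Finset α) (h : ¬ (S ⊆ V ∧ 2 ≤ S.card)) : RootRel V (MvPolynomial.X S)
  | cross (S T : Finset α) (hS : S ⊆ V) (hT : T ⊆ V) (hS2 : 2 ≤ S.card) (hT2 : 2 ≤ T.card)
      (h : ¬ Compat S T) : RootRel V (MvPolynomial.X S * MvPolynomial.X T)
  | lin (a b : α) (ha : a ∈ V) (hb : b ∈ V) (hab : a ≠ b) :
      RootRel V (∑ S ∈ V.powerset with (a ∈ S ∧ b ∈ S), MvPolynomial.X S)

/-- the ideal of the relations -/
noncomputable def RI {α : Type} [DecidableEq α] (V : Finset α) :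
    Ideal (MvPolynomial (Finset α) ℚ) := Ideal.span {p | RootRel V p}

/-- K1. Push forward along the forgetful map of the leaf `q`. Put `A = MvPolynomial (Finset α) ℚ`.
Let `τ : A → MvPolynomial (Finset α) A` be the `ℚ`-algebra map with
`X S ↦ X (S.erase q)` if `q ∈ S`, `S ⊆ insert q V`, `2 ≤ |S|` (the variable `e_T`, `T = S.erase q`
nonempty), `X S ↦ C (X S) - X S` if `S ⊆ V`, `2 ≤ |S|`, and `X S ↦ 0` otherwise. Let `ρ` be the
`A`-linear map from `MvPolynomial (Finset α) A` to `A` with the following values on monomials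
`∏ e_T^{a_T}`: `0` if the monomial is `1` or the set of its variables is not a chain of nonempty
subsets of `V`; if the variables are `T_1 ⊂ ... ⊂ T_l` with exponents `a_1, ..., a_l`, the value is
`P(T_1, a_1) ∏_{i ≥ 2} X(T_i)^{a_i}`, where
`P({i}, a) = (- ∑_{i ∈ T ⊆ V, 2 ≤ |T|} X T)^(a-1)`, `P(V, a) = - X(V)^(a-1)`, and for `2 ≤ |T|`,
`T ≠ V`, `P(T, a) = - X T * ∑_{i < a-1} (X T)^(a-2-i) (X T - y_T)^i`, `y_T = ∑_{T ⊆ U ⊆ V} X U`
(so `P(T,1) = 0`, and `y_T P(T,a) = - X T ((X T)^(a-1) - (X T - y_T)^(a-1))`). `π = ρ ∘ τ`.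
Check `ρ (τ r * E) ∈ RI V` for every relation `r` of `insert q V` and every monomial `E` in the
`e`: (we write `X S` also for `C (X S)`; `ρ` is linear over it)
(i) `e_S e_T`, not nested: not a chain, `0`. (ii) `(X S - e_S) e_T` with `S ∩ T` nonempty and not
`S ⊆ T`. If `T ⊂ S`: let `E e_T` be a chain with smallest `T_1 ⊆ T ⊂ S`; if `S` is comparable with
the chain then `ρ(e_S E e_T) = X S ρ(E e_T)`; if `S` is incomparable with some `T_i` then
`ρ(E e_T)` has the factor `X(T_i)` (`T_i` is not the smallest) and `X S X(T_i) ∈ RI V` as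
`T_1 ⊆ S ∩ T_i`, while `ρ(e_S E e_T) = 0`. If `S, T` are incomparable: `ρ(e_S e_T E) = 0` and
`ρ(e_T E)` is divisible by `X T` (`2 ≤ |T|`, `T ≠ V`), `X S X T ∈ RI V`.
(iii) `(X S - e_S)(X T - e_T)`, `S, T` incompatible: `X S X T ∈ RI V`, `ρ(e_S e_T E) = 0`,
`X T ρ(e_S E)` is divisible by `X T X S` (`S ≠ V`, `2 ≤ |S|`), the same for `X S ρ(e_T E)`.
(iv) `r = ∑_{i ∈ T ⊆ V} e_T` (`i ∈ V`), the relation for the pair `i, q`. `E = 1`:
`P({i},1) + P(V,1) = 1 - 1 = 0`. `E` a chain with smallest `T_1`, exponent `a`, and let `Π` be the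
product of the `X(T_j)^{a_j}`, `j ≥ 2`. If `i ∈ T_1`: modulo `RI V` the sum is `Π` times
`[T_1 ≠ {i}] X(T_1)^a + P(T_1,a+1) + P(T_1,a) ∑_{T ⊋ T_1} X T` (the term `X(T_1)^a` comes from
`T = {i}`; the `T` with `{i} ⊂ T ⊂ T_1` give `0`; a `T ⊋ T_1` incomparable with some `T_j` gives
`0` but `X T X(T_j) ∈ RI V`), which is `0` by the formulas for `P`. If `i ∉ T_1`: modulo `RI V` it is
`Π P(T_1,a) ∑_{T ⊇ T_1 ∪ i} X T`; for `T_1 = {t}` the sum is a relation; for `2 ≤ |T_1|` use that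
`X(T_1)` divides `P(T_1,a)` and `X(T_1) ∑_{T ⊇ T_1 ∪ i} X T = X(T_1) ∑_{T ∋ t, i} X T` modulo the
relations, `t ∈ T_1`. (v) `r = ∑_{a,b ∈ S ⊆ insert q V} X S`, `a, b ∈ V`: `τ r = C(∑_{a,b∈S⊆V} X S)`.
(vi) junk: `τ r = 0`. -/
def S_push : Prop := ∀ (α : Type) [DecidableEq α] (V : Finset α) (q : α), q ∉ V → 2 ≤ V.card →
  ∃ π : MvPolynomial (Finset α) ℚ →ₗ[ℚ] MvPolynomial (Finset α) ℚ,
    (∀ ρ, RootRel (insert q V) ρ → ∀ p, π (ρ * p) ∈ RI V) ∧
    (∀ d p, MvPolynomial.IsHomogeneous p (d + 1) → MvPolynomial.IsHomogeneous (π p) d) ∧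
    (∀ p, MvPolynomial.IsHomogeneous p 0 → π p = 0) ∧
    (∀ e, π ((-MvPolynomial.X (insert q V)) ^ (e + 1)) = (-MvPolynomial.X V) ^ e)

/-- K2. The functional, by induction on `V` with K1; for `|V| = 2` it is the constant
coefficient. -/
def S_rexist : Prop := ∀ (α : Type) [DecidableEq α] (V : Finset α), 2 ≤ V.card →
  ∃ f : MvPolynomial (Finset α) ℚ →ₗ[ℚ] ℚ, (∀ p ∈ RI V, f p = 0) ∧
    f ((-MvPolynomial.X V) ^ (V.card - 2)) = 1 ∧
    ∀ d p, MvPolynomial.IsHomogeneous p d → d + 2 ≠ V.card → f p = 0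

/-! ### Point strata -/

/-- maximal nested families -/
def MaxNested {α : Type} [DecidableEq α] (V : Finset α) (F : Finset (Finset α)) : Prop :=
  (∀ S ∈ F, S ⊂ V ∧ 2 ≤ S.card) ∧ (∀ S ∈ F, ∀ T ∈ F, Compat S T) ∧ F.card + 2 = V.card

/-- L1. A nested family `F` of proper subsets with at least two elements has
`|F| + 2 ≤ |V|`. Induction on `|V|`. If some `{a,b} ∈ F`: replace `V` by `V.erase b` and `F` by the
`T.erase b`, `T ∈ F`, `T ≠ {a,b}` (each such `T` contains both `a, b` or none; injective).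
If there is none: let `S` be minimal in `F`, `a ∈ S` (`3 ≤ |S|`); `T ↦ T.erase a` is injective on
`F` (if `a ∉ T`, `insert a T ∈ F`, then `insert a T` meets `S`, so contains `S` by minimality, so
`T` meets `S`, hence `T ⊆ S` or `S ⊆ T`, impossible) and goes to proper subsets of `V.erase a` with
at least two elements (`T = V.erase a` would meet `S` and be incompatible with it). -/
def S_bound : Prop := ∀ (α : Type) [DecidableEq α] (V : Finset α) (F : Finset (Finset α)),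
  2 ≤ V.card → (∀ S ∈ F, S ⊂ V ∧ 2 ≤ S.card) → (∀ S ∈ F, ∀ T ∈ F, Compat S T) →
  F.card + 2 ≤ V.card

/-- L2. All point strata give `(-x V)^(|V|-2)`. Induction on `|V|`; `|V| = 2`: `F = ∅`. `|V| ≥ 3`:
`F` contains a set `{a, b}` (a minimal `S ∈ F` with `3 ≤ |S|` could be enlarged:
`insert {a,b} F`, `a, b ∈ S`, is nested with `|F| + 1` elements, against L1). The family
`F' = {T.erase b | T ∈ F, T ≠ {a,b}}` is maximal nested in `V.erase b = outV V {a,b} a`, and
`outx x {a,b} a (T.erase b) = x T`. So `m ∏_F x = m x_{ab} (-x V)^(|V|-3)`, use S_pair. -/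
def S_point : Prop := ∀ (α : Type) [DecidableEq α] (R : Type) [CommRing R] [Algebra ℚ R] (m : R)
  (V : Finset α) (x : Finset α → R), Sys m V x → 2 ≤ V.card → ∀ F, MaxNested V F →
  m * ∏ S ∈ F, x S = m * (-x V) ^ (V.card - 2)

/-- L3. There is a maximal nested family (a flag): induction on `|V|`, add `V.erase b`. -/
def S_flag : Prop := ∀ (α : Type) [DecidableEq α] (V : Finset α), 2 ≤ V.card →
  ∃ F, MaxNested V F

/-! ### Keel's ring -/

section keel

variable {ι : Type} [Fintype ι] [DecidableEq ι]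

/-- the rooted variables in Keel's ring, the root is `j` -/
noncomputable def xr (j : ι) (S : Finset ι) : Chow ι :=
  if S = univ.erase j then - psi j else bdiv S

/-- parity of the number of twisted markings -/
def par (W T : Finset ι) : Bool := decide (Odd (T ∩ W).card)

end keel

/-- the coefficients of the power sum classes -/
noncomputable def bco (k : ℕ) : ℚ := (k.factorial : ℚ) *
  (((Polynomial.bernoulli (k + 1)).eval 0 - (Polynomial.bernoulli (k + 1)).eval (1 / 2))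
      / ((k + 1).factorial : ℚ))

/-- R1. `psi j = ∑_{a,b ∈ T, j ∉ T, T ≠ univ.erase j} D_T` for all `a ≠ b` different from `j`:
the sum does not depend on `a, b` by the relation `four a b c j`, and `psi j` is the average. -/
def S_psi : Prop := ∀ (ι : Type) [Fintype ι] [DecidableEq ι] (j a b : ι), a ≠ b → a ≠ j → b ≠ j →
  psi j = ∑ T : Finset ι with (a ∈ T ∧ b ∈ T ∧ T ⊂ univ.erase j), bdiv T

/-- R2. `xr j` is a rooted system with leaves `univ.erase j` and multiplier `1`: `cross` from Keel's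
`cross` (both sets avoid `j`, so their union is not everything), `lin` is R1. -/
def S_rooted : Prop := ∀ (ι : Type) [Fintype ι] [DecidableEq ι] (j : ι), 3 ≤ Fintype.card ι →
  Sys (1 : Chow ι) (univ.erase j) (xr j)

/-- R3. `psi i = yp (univ.erase j) (xr j) {i}` for `i ≠ j`: R1 for `i` with the pair `j, b`:
`psi i = ∑_{j,b ∈ T ⊂ univ.erase i} D_T = ∑_{i ∈ S, j, b ∉ S, 2 ≤ |S|} D_S` (complements; `T ⊂` means
`2 ≤ |Tᶜ|`), and `∑_{i ∈ S ⊂ V, 2 ≤ |S|} D_S - ∑_{i,b ∈ S ⊂ V} D_S` with the second sum `= psi j`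
by R1. -/
def S_psi_leaf : Prop := ∀ (ι : Type) [Fintype ι] [DecidableEq ι] (i j : ι), i ≠ j →
  3 ≤ Fintype.card ι → psi i = yp (univ.erase j) (xr j) {i}

/-- R4. For `S ⊂ V = univ.erase j`, `2 ≤ |S|`: `D_S psiBranch S = D_S (-(x_S + yp x S))`: for
`a ≠ b` in `S`, `D_S ∑_{a,b ∈ T ⊆ V} x T = 0` and the `T` incompatible with `S` are killed, so
`D_S (∑_{a,b ∈ T ⊂ S} D_T + x_S + yp x S) = 0`; average over `a, b`. -/
def S_branch_in : Prop := ∀ (ι : Type) [Fintype ι] [DecidableEq ι] (j : ι) (S : Finset ι),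
  S ⊂ univ.erase j → 2 ≤ S.card →
  bdiv S * psiBranch S = bdiv S * (-(xr j S + yp (univ.erase j) (xr j) S))

/-- R5. `D_S psiBranch Sᶜ = D_S yp x S`: for `b ∈ V \ S` the summand of the pair `j, b` is
`∑_{j,b ∈ T ⊂ Sᶜ} D_T = ∑_{S ⊂ T' , j,b ∉ T'} D_{T'}` (`T' = Tᶜ`), and
`D_S ∑_{S ∪ b ⊆ T' ⊆ V} x T' = D_S ∑_{s,b ∈ T' ⊆ V} x T' = 0` (`s ∈ S`), so it equals `D_S yp x S`
after multiplication by `D_S`. For a pair `a, b ∈ V \ S`, both different from `j`:
`∑_{a,b ∈ T ⊂ Sᶜ} D_T`: the `T` without `j` are `T ⊆ V \ S`, the `T` with `j` correspond to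
`T' = Tᶜ ⊋ S`, `a, b ∉ T'`. Under `D_S`: the relation for `a, b` gives
`∑_{a,b∈T⊆V\S} x T = - ∑_{T ⊇ S ∪ {a,b}} x T`; by inclusion-exclusion
`∑_{T' ⊋ S; a,b ∉ T'} = yp - ∑_{T' ⊇ S∪a} - ∑_{T' ⊇ S∪b} + ∑_{T' ⊇ S∪{a,b}}` and the two middle sums
vanish, so the total is `yp` again. Average. -/
def S_branch_out : Prop := ∀ (ι : Type) [Fintype ι] [DecidableEq ι] (j : ι) (S : Finset ι),
  S ⊂ univ.erase j → 2 ≤ S.card →
  bdiv S * psiBranch Sᶜ = bdiv S * yp (univ.erase j) (xr j) S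

/-- R6. The power sum classes. `k` even, `k ≥ 2`: both sides are `0` as
`B_{k+1}(0) = B_{k+1}(1/2) = 0` (use `B_n(1-x) = (-1)^n B_n(x)`). `k` odd: the boundary sum is
twice the sum over the `S` not containing `j` (`S ↦ Sᶜ`, `|S ∩ W|` and `|Sᶜ ∩ W|` have the same
parity as `|W|` is even, `k - 1` is even), and by R4, R5
`D_S ∑_a (-y_S)^a (-yp_S)^(k-1-a) = D_S ∑_a y_S^a yp_S^(k-1-a) = y_S^k - yp_S^k` (`y_S - yp_S = x_S = D_S`).
The term `S = V` of `pw` is `- (x V)^k = psi_j^k`, it occurs iff `|V ∩ W|` is odd iff `j ∈ W`; the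
singletons give `psi_i^k` (R3), `zz` of a singleton is `0`. -/
def S_hodge : Prop := ∀ (ι : Type) [Fintype ι] [DecidableEq ι] (j : ι) (W : Finset ι),
  3 ≤ Fintype.card ι → Even W.card → ∀ k, 1 ≤ k →
  (k.factorial : ℚ) • hodgeCh W k = bco k • pw (univ.erase j) (par W) (xr j) k

/-- R7. From R6 by comparing the two recursions (`newton` and `lam`), strong induction. -/
def S_lam : Prop := ∀ (ι : Type) [Fintype ι] [DecidableEq ι] (j : ι) (W : Finset ι),
  3 ≤ Fintype.card ι → Even W.card → ∀ m,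
  lam W m = lamV (univ.erase j) (par W) bco (xr j) m

/-- R8. `B_2(0) = 1/6`, `B_2(1/2) = -1/12`. -/
def S_bco : Prop := bco 1 = 1 / 8

/-- R9. Existence of the degree functional: `j` a marking, `V = univ.erase j`, `f` from K2,
`θ` the algebra map `X S ↦ X S` (`j ∉ S`) or `X Sᶜ` (`j ∈ S`) for stable `S` (`2 ≤ |S|, |Sᶜ|`), `0` for
unstable `S`; `φ (cl p) = f (θ p)`. `θ` maps the relations into `RI V`: `cross` clear;
`four a b c d`: if `d = j` (or another of them) it is the difference of two `lin` relations (the sets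
containing all three cancel); if none of them is `j`: the sum over `S` is
`∑_{a,b∈S; c,d∉S; j∉S} + ∑_{c,d∈S; a,b∉S; j∉S}`; with `t(A) = ∑_{A ⊆ S ⊆ V} X S` inclusion-exclusion
gives `t(ab) - t(abc) - t(abd) + t(abcd) + t(cd) - t(acd) - t(bcd) + t(abcd)`, and `t(ab), t(cd)` are
relations, the rest is symmetric in `a, b, c, d`. `graded`: `θ` preserves degrees. `point`: the sets
`S` or `Sᶜ` not containing `j` form a `MaxNested` family of `V`; L2 in the quotient by `RI V`. -/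
def S_degree_exists : Prop := ∀ (ι : Type) [Fintype ι] [DecidableEq ι], 3 ≤ Fintype.card ι →
  ∃ φ : Chow ι →ₗ[ℚ] ℚ, IsDegree φ

/-- R10. `φ (psi j ^ (n - 3)) = 1` for a degree functional: L3, L2 with `m = 1`, and `point`. -/
def S_degree_psi : Prop := ∀ (ι : Type) [Fintype ι] [DecidableEq ι] (j : ι), 3 ≤ Fintype.card ι →
  ∀ φ : Chow ι →ₗ[ℚ] ℚ, IsDegree φ → φ (psi j ^ (Fintype.card ι - 3)) = 1

/-- R11. Uniqueness: a homogeneous class of degree `n - 3` is a multiple of `psi j ^ (n-3)` by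
S_span (`cl p ∈ (H1 V (xr j))^(n-3)`), use R10; the other degrees are `graded`. -/
def S_degree_unique : Prop := ∀ (ι : Type) [Fintype ι] [DecidableEq ι], 3 ≤ Fintype.card ι →
  ∀ φ ψ : Chow ι →ₗ[ℚ] ℚ, IsDegree φ → IsDegree ψ → φ = ψ

end Pool.Agent.HH
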